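import Mathlib

/-!
# Every finite 2'-simple group is mixable
-/

set_option linter.unusedSectionVars false

open scoped Topology NNReal
open Metric

namespace Pool.Agent.Results.MP_892d82_al.TwoPrimeSimpleMixable

universe u

/-- `G` is `2'`-simple: its only normal subgroup of odd index is `G` itself. -/
def TwoPrimeSimple (G : Type u) [Group G] : Prop :=
  ∀ N : Subgroup G, N.Normal → Odd N.index → N = ⊤

/-- The value `g₁^{ε₁} g₂^{ε₂} ⋯ g_k^{ε_k}` of the product for the outcome `ε`. -/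
def subproduct {G : Type u} [Group G] {k : ℕ} (g : Fin k → G) (ε : Fin k → Bool) : G :=
  (List.ofFn fun i => if ε i then g i else 1).prod

/-- The probability of the outcome `ε` of independent Bernoulli variables with
`Pr(ε i = 1) = p i`. -/
def prob {k : ℕ} (p : Fin k → ℝ) (ε : Fin k → Bool) : ℝ := ∏ i, if ε i then p i else 1 - p i

open Classical in
/-- `G` is mixable: for some `g₁, …, g_k` and independent Bernoulli variables the random product
`g₁^{ε₁} ⋯ g_k^{ε_k}` takes every value `x` with probability exactly `1 / |G|`. -/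
def Mixable (G : Type u) [Group G] : Prop :=
  ∃ (k : ℕ) (g : Fin k → G) (p : Fin k → ℝ), (∀ i, 0 ≤ p i ∧ p i ≤ 1) ∧
    ∀ x : G, ∑ ε : Fin k → Bool with subproduct g ε = x, prob p ε = 1 / Nat.card G

/-! ### Lists of Bernoulli factors -/

section lists

variable {G : Type u} [Group G]

/-- the product of the factors `(1 - p) + p ρ(g)` -/
def ev {A : Type*} [Ring A] [Algebra ℝ A] (ρ : G →* A) (l : List (G × ℝ)) : A :=
  (l.map fun x => 1 + x.2 • (ρ x.1 - 1)).prod

/-- all parameters are probabilities -/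
def Valid (l : List (G × ℝ)) : Prop := ∀ x ∈ l, 0 ≤ x.2 ∧ x.2 ≤ 1

theorem ev_nil {A : Type*} [Ring A] [Algebra ℝ A] (ρ : G →* A) : ev ρ [] = 1 := rfl

theorem ev_cons {A : Type*} [Ring A] [Algebra ℝ A] (ρ : G →* A) (x : G × ℝ) (l : List (G × ℝ)) :
    ev ρ (x :: l) = (1 + x.2 • (ρ x.1 - 1)) * ev ρ l := by
  simp [ev]

theorem ev_append {A : Type*} [Ring A] [Algebra ℝ A] (ρ : G →* A) (l l' : List (G × ℝ)) :
    ev ρ (l ++ l') = ev ρ l * ev ρ l' := by
  simp [ev]

theorem Valid.append {l l' : List (G × ℝ)} (h : Valid l) (h' : Valid l') : Valid (l ++ l') := by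
  intro x hx
  rcases List.mem_append.1 hx with hx | hx
  · exact h x hx
  · exact h' x hx

theorem Valid.cons {l : List (G × ℝ)} (h : Valid l) {x : G × ℝ} (hx : 0 ≤ x.2 ∧ x.2 ≤ 1) :
    Valid (x :: l) := by
  intro y hy
  rcases List.mem_cons.1 hy with rfl | hy
  · exact hx
  · exact h y hy

theorem valid_nil : Valid ([] : List (G × ℝ)) := by
  intro x hx; simp at hx

end lists

/-! ### An open mapping theorem with positivity -/

theorem posOpen {ι : Type*} [Fintype ι] {V : Type*} [NormedAddCommGroup V] [NormedSpace ℝ V]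
    [CompleteSpace V] (Φ : ℝ × (ι → ℝ) → V) (L : ℝ × (ι → ℝ) →L[ℝ] V)
    (h : HasStrictFDerivAt Φ L 0) (hL : Function.Surjective L) (a0 : ℝ)
    (hk : L (a0, fun _ => 1) = 0) (N : Set (ℝ × (ι → ℝ))) (hN : N ∈ 𝓝 (0 : ℝ × (ι → ℝ))) :
    ∀ᶠ y in 𝓝 (Φ 0), ∃ z ∈ N, (∀ i, 0 < z.2 i) ∧ Φ z = y := by
  classical
  have hr : L.range = ⊤ := LinearMap.range_eq_top.2 hL
  set R := ContinuousLinearMap.nonlinearRightInverseOfSurjective L hr with hR
  have hν : (0 : ℝ) < R.nnnorm := by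
    exact_mod_cast ContinuousLinearMap.nonlinearRightInverseOfSurjective_nnnorm_pos L hr
  set k : ℝ × (ι → ℝ) := (a0, fun _ => 1) with hkdef
  set m : ℝ := (R.nnnorm : ℝ)⁻¹ with hm
  have hm0 : 0 < m := inv_pos.2 hν
  have hk0 : 0 ≤ ‖k‖ := norm_nonneg k
  set κr : ℝ := m / (4 * (‖k‖ + 1)) with hκr
  have hκ0 : 0 < κr := by positivity
  obtain ⟨s, hs, happ⟩ := h.approximates_deriv_on_nhds (c := ⟨κr, hκ0.le⟩)
    (Or.inr (by rw [← NNReal.coe_pos]; exact hκ0))
  obtain ⟨r, hr0, hrs⟩ := Metric.mem_nhds_iff.1 (Filter.inter_mem hN hs)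
  set τ : ℝ := r / (2 * (‖k‖ + 1)) with hτ
  have hτ0 : 0 < τ := by positivity
  have hτr : τ * (‖k‖ + 1) = r / 2 := by
    rw [hτ]; field_simp
  have hball : closedBall (τ • k) (τ / 2) ⊆ N ∩ s := by
    intro z hz
    apply hrs
    rw [mem_ball_zero_iff]
    rw [mem_closedBall, dist_eq_norm] at hz
    have h1 : ‖z‖ ≤ ‖z - τ • k‖ + ‖τ • k‖ := by
      have := norm_add_le (z - τ • k) (τ • k)
      rwa [sub_add_cancel] at this
    rw [norm_smul, Real.norm_of_nonneg hτ0.le] at h1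
    nlinarith
  have hsurj := happ.surjOn_closedBall_of_nonlinearRightInverse R (ε := τ / 2) (b := τ • k)
    (by positivity) (fun z hz => (hball hz).2)
  have hmem0 : (0 : ℝ × (ι → ℝ)) ∈ s := mem_of_mem_nhds hs
  have hmemk : τ • k ∈ s := (hball (mem_closedBall_self (by positivity))).2
  have hdist : dist (Φ 0) (Φ (τ • k)) ≤ κr * (τ * ‖k‖) := by
    have := happ (τ • k) hmemk 0 hmem0
    rw [sub_zero, map_smul, hk, smul_zero, sub_zero, norm_smul, Real.norm_of_nonneg hτ0.le] at this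
    rw [dist_comm, dist_eq_norm]
    exact this
  have hlt : κr * (τ * ‖k‖) < (m - κr) * (τ / 2) := by
    have e1 : κr * (4 * (‖k‖ + 1)) = m := by rw [hκr]; field_simp
    have : (m - κr) * (τ / 2) - κr * (τ * ‖k‖) = τ * κr * (‖k‖ + 3 / 2) := by
      rw [← e1]; ring
    have h2 : 0 < τ * κr * (‖k‖ + 3 / 2) := by positivity
    linarith
  have hnhds : closedBall (Φ (τ • k)) ((m - κr) * (τ / 2)) ∈ 𝓝 (Φ 0) :=
    Filter.mem_of_superset (isOpen_ball.mem_nhds (show Φ 0 ∈ ball (Φ (τ • k)) _ from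
      lt_of_le_of_lt hdist hlt)) ball_subset_closedBall
  filter_upwards [hnhds] with y hy
  obtain ⟨z, hz, hzy⟩ := hsurj hy
  refine ⟨z, (hball hz).1, fun i => ?_, hzy⟩
  rw [mem_closedBall, dist_eq_norm] at hz
  have h1 : |z.2 i - τ| ≤ τ / 2 := by
    have h2 : ‖(z - τ • k).2 i‖ ≤ ‖z - τ • k‖ :=
      (norm_le_pi_norm _ i).trans (norm_snd_le (z - τ • k))
    have h3 : (z - τ • k).2 i = z.2 i - τ := by simp [hkdef]
    rw [h3, Real.norm_eq_abs] at h2
    linarith
  have := (abs_le.1 h1).1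
  linarith

/-! ### Simple modules -/

section simple

variable {G : Type u} [Group G] [Fintype G] {V : Type u} [NormedAddCommGroup V]
  [NormedSpace ℝ V] [FiniteDimensional ℝ V]

/-- the product of the factors `1 + p h (ρ h - 1)` over a list -/
def FF (ρ : G →* (V →L[ℝ] V)) (l : List G) (p : G → ℝ) : V →L[ℝ] V :=
  (l.map fun h => 1 + p h • (ρ h - 1)).prod

theorem FF_zero (ρ : G →* (V →L[ℝ] V)) (l : List G) : FF ρ l 0 = 1 := by
  simp [FF]

theorem FF_eq (ρ : G →* (V →L[ℝ] V)) (l : List G) (p : G → ℝ) :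
    FF ρ l p = ev ρ (l.map fun h => (h, p h)) := by
  simp [FF, ev, List.map_map, Function.comp_def]

/-- one term of the derivative -/
noncomputable def D1 (ρ : G →* (V →L[ℝ] V)) (h : G) : (G → ℝ) →L[ℝ] (V →L[ℝ] V) :=
  (ContinuousLinearMap.proj h : (G → ℝ) →L[ℝ] ℝ).smulRight (ρ h - 1)

theorem FF_deriv (ρ : G →* (V →L[ℝ] V)) (l : List G) :
    HasStrictFDerivAt (FF ρ l) (l.map (D1 ρ)).sum 0 := by
  induction l with
  | nil =>
    have : FF ρ [] = fun _ => 1 := rfl
    rw [this]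
    simpa using hasStrictFDerivAt_const (𝕜 := ℝ) (1 : V →L[ℝ] V) (0 : G → ℝ)
  | cons h l ih =>
    have e : FF ρ (h :: l) = (fun p => 1 + p h • (ρ h - 1)) * FF ρ l := by
      funext p
      simp [FF]
    have d1 : HasStrictFDerivAt (fun p : G → ℝ => 1 + p h • (ρ h - 1)) (D1 ρ h) 0 := by
      have := ((D1 ρ h).hasStrictFDerivAt (x := 0)).const_add (1 : V →L[ℝ] V)
      exact this
    rw [e]
    refine (d1.mul' ih).congr_fderiv ?_
    rw [FF_zero]
    ext q v
    simp [D1]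
    abel

/-- the derivative at `0` of the product over all group elements -/
noncomputable def DD (ρ : G →* (V →L[ℝ] V)) : (G → ℝ) →L[ℝ] (V →L[ℝ] V) := ∑ h, D1 ρ h

theorem DD_apply (ρ : G →* (V →L[ℝ] V)) (q : G → ℝ) (v : V) :
    DD ρ q v = ∑ h, q h • (ρ h v - v) := by
  simp [DD, D1]

theorem FF_deriv' (ρ : G →* (V →L[ℝ] V)) :
    HasStrictFDerivAt (FF ρ Finset.univ.toList) (DD ρ) 0 := by
  have := FF_deriv ρ Finset.univ.toList
  rwa [Finset.sum_map_toList] at this

theorem FF_inv_deriv (ρ : G →* (V →L[ℝ] V)) :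
    HasStrictFDerivAt (fun p => Ring.inverse (FF ρ Finset.univ.toList p)) (-DD ρ) 0 := by
  have h1 := hasStrictFDerivAt_ringInverse (𝕜 := ℝ) (1 : (V →L[ℝ] V)ˣ)
  have h2 : HasStrictFDerivAt Ring.inverse
      (-(ContinuousLinearMap.mulLeftRight ℝ (V →L[ℝ] V)) ↑(1 : (V →L[ℝ] V)ˣ)⁻¹ ↑(1 : (V →L[ℝ] V)ˣ)⁻¹)
      (FF ρ Finset.univ.toList 0) := by
    rw [FF_zero]; exact h1
  refine (h2.comp (0 : G → ℝ) (FF_deriv' ρ)).congr_fderiv ?_
  ext q v
  simp

/-- invariance under the group -/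
def Inv (ρ : G →* (V →L[ℝ] V)) (W : Submodule ℝ V) : Prop := ∀ g, ∀ w ∈ W, ρ g w ∈ W

theorem span_orbit (ρ : G →* (V →L[ℝ] V))
    (hs : ∀ W : Submodule ℝ V, Inv ρ W → W = ⊥ ∨ W = ⊤) {v : V} (hv : v ≠ 0) :
    Submodule.span ℝ (Set.range fun h => ρ h v) = ⊤ := by
  have hinv : Inv ρ (Submodule.span ℝ (Set.range fun h => ρ h v)) := by
    intro g w hw
    induction hw using Submodule.span_induction with
    | mem x hx =>
      obtain ⟨h, rfl⟩ := hx
      exact Submodule.subset_span ⟨g * h, by simp [map_mul]⟩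
    | zero => simp
    | add x y _ _ hx hy => rw [map_add]; exact Submodule.add_mem _ hx hy
    | smul a x _ hx => rw [map_smul]; exact Submodule.smul_mem _ _ hx
  rcases hs _ hinv with h | h
  · exfalso
    apply hv
    have : v ∈ Submodule.span ℝ (Set.range fun h => ρ h v) :=
      Submodule.subset_span ⟨1, by simp⟩
    rw [h] at this
    exact (Submodule.mem_bot ℝ).1 this
  · exact h

theorem near (ρ : G →* (V →L[ℝ] V)) (hs : ∀ W : Submodule ℝ V, Inv ρ W → W = ⊥ ∨ W = ⊤)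
    (hsum : ∀ v, ∑ g, ρ g v = 0) (σ : ℝ) (hσ : σ = 1 ∨ σ = -1)
    (Ψ : (G → ℝ) → (V →L[ℝ] V)) (hΨ : HasStrictFDerivAt Ψ (σ • DD ρ) 0) (h1 : Ψ 0 = 1)
    {v : V} (hv : v ≠ 0) (N : Set (G → ℝ)) (hN : N ∈ 𝓝 (0 : G → ℝ)) :
    ∀ᶠ y in 𝓝 v, ∃ (a : ℝ) (p : G → ℝ), 0 < 1 + a ∧ p ∈ N ∧ (∀ h, 0 ≤ p h ∧ p h ≤ 1) ∧
      (1 + a) • Ψ p v = y := by
  classical
  set Φ : ℝ × (G → ℝ) → V := fun z => (1 + z.1) • Ψ z.2 v with hΦ
  set L : ℝ × (G → ℝ) →L[ℝ] V :=
    (ContinuousLinearMap.fst ℝ ℝ (G → ℝ)).smulRight v +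
      ((ContinuousLinearMap.apply ℝ V v).comp (σ • DD ρ)).comp
        (ContinuousLinearMap.snd ℝ ℝ (G → ℝ)) with hL
  have hLa : ∀ (a : ℝ) (q : G → ℝ), L (a, q) = a • v + σ • ∑ h, q h • (ρ h v - v) := by
    intro a q
    simp [hL, DD_apply]
  have hd : HasStrictFDerivAt Φ L 0 := by
    have e1 : HasStrictFDerivAt (fun z : ℝ × (G → ℝ) => 1 + z.1)
        (ContinuousLinearMap.fst ℝ ℝ (G → ℝ)) 0 :=
      ((ContinuousLinearMap.fst ℝ ℝ (G → ℝ)).hasStrictFDerivAt (x := 0)).const_add (1 : ℝ)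
    have e2 : HasStrictFDerivAt (fun z : ℝ × (G → ℝ) => Ψ z.2 v)
        (((ContinuousLinearMap.apply ℝ V v).comp (σ • DD ρ)).comp
          (ContinuousLinearMap.snd ℝ ℝ (G → ℝ))) 0 := by
      have e3 : HasStrictFDerivAt (fun z : ℝ × (G → ℝ) => Ψ z.2)
          ((σ • DD ρ).comp (ContinuousLinearMap.snd ℝ ℝ (G → ℝ))) 0 := by
        refine HasStrictFDerivAt.comp (g := Ψ) (0 : ℝ × (G → ℝ)) ?_
          ((ContinuousLinearMap.snd ℝ ℝ (G → ℝ)).hasStrictFDerivAt (x := 0))
        exact hΨ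
      exact ((ContinuousLinearMap.apply ℝ V v).hasStrictFDerivAt (x := Ψ 0)).comp
        (0 : ℝ × (G → ℝ)) e3
    refine (e1.smul e2).congr_fderiv ?_
    ext q
    · simp [hL, h1]
    · simp [hL, h1]
  have hΦ0 : Φ 0 = v := by simp [hΦ, h1]
  have hsurj : Function.Surjective L := by
    apply LinearMap.range_eq_top (f := L.toLinearMap).1
    rw [eq_top_iff, ← span_orbit ρ hs hv, Submodule.span_le]
    rintro _ ⟨h, rfl⟩
    refine ⟨(1, σ • Pi.single h 1), ?_⟩
    change L (1, σ • Pi.single h 1) = ρ h v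
    rw [hLa]
    have : ∑ h' : G, (σ • (Pi.single h 1 : G → ℝ)) h' • (ρ h' v - v) = σ • (ρ h v - v) := by
      rw [Finset.sum_eq_single h]
      · simp
      · intro b _ hb; simp [hb]
      · intro h'; exact absurd (Finset.mem_univ _) h'
    rw [this, smul_smul]
    have hσ2 : σ * σ = 1 := by rcases hσ with h | h <;> rw [h] <;> norm_num
    rw [hσ2]
    simp
  have hker : L (σ * Fintype.card G, fun _ => 1) = 0 := by
    rw [hLa]
    simp only [one_smul, Finset.sum_sub_distrib, hsum, Finset.sum_const, Finset.card_univ]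
    rw [zero_sub, smul_neg, mul_smul, Nat.cast_smul_eq_nsmul, add_neg_cancel]
  have hNN : {z : ℝ × (G → ℝ) | 0 < 1 + z.1 ∧ z.2 ∈ N ∧ ∀ h, z.2 h < 1} ∈
      𝓝 (0 : ℝ × (G → ℝ)) := by
    refine Filter.inter_mem ?_ (Filter.inter_mem ?_ ?_)
    · have hc : Continuous fun z : ℝ × (G → ℝ) => 1 + z.1 := by fun_prop
      exact hc.continuousAt.eventually (lt_mem_nhds (by simp))
    · exact continuous_snd.continuousAt.preimage_mem_nhds hN
    · have : (∀ᶠ z in 𝓝 (0 : ℝ × (G → ℝ)), ∀ h, z.2 h < 1) := by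
        rw [Filter.eventually_all]
        intro h
        have hc : Continuous fun z : ℝ × (G → ℝ) => z.2 h := by fun_prop
        exact hc.continuousAt.eventually (gt_mem_nhds (by simp))
      exact this
  have := posOpen Φ L hd hsurj _ hker _ hNN
  rw [hΦ0] at this
  filter_upwards [this] with y hy
  obtain ⟨z, ⟨hz1, hz2, hz3⟩, hz4, hz5⟩ := hy
  exact ⟨z.1, z.2, hz1, hz2, fun h => ⟨(hz4 h).le, (hz3 h).le⟩, hz5⟩

/-- `u` is reachable from `v` up to a positive scalar -/
def Rch (ρ : G →* (V →L[ℝ] V)) (v u : V) : Prop :=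
  ∃ l : List (G × ℝ), Valid l ∧ ∃ c : ℝ, 0 < c ∧ ev ρ l v = c • u

theorem Rch.refl (ρ : G →* (V →L[ℝ] V)) (v : V) : Rch ρ v v :=
  ⟨[], valid_nil, 1, one_pos, by simp [ev_nil]⟩

theorem Rch.trans {ρ : G →* (V →L[ℝ] V)} {v u w : V} (h : Rch ρ v u) (h' : Rch ρ u w) :
    Rch ρ v w := by
  obtain ⟨l, hl, c, hc, e⟩ := h
  obtain ⟨l', hl', c', hc', e'⟩ := h'
  refine ⟨l' ++ l, hl'.append hl, c * c', mul_pos hc hc', ?_⟩
  rw [ev_append]
  change ev ρ l' (ev ρ l v) = _
  rw [e, map_smul, e', smul_smul]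

theorem valid_map (l : List G) {p : G → ℝ} (hp : ∀ h, 0 ≤ p h ∧ p h ≤ 1) :
    Valid (l.map fun h => (h, p h)) := by
  intro x hx
  obtain ⟨h, _, rfl⟩ := List.mem_map.1 hx
  exact hp h

theorem near_out (ρ : G →* (V →L[ℝ] V)) (hs : ∀ W : Submodule ℝ V, Inv ρ W → W = ⊥ ∨ W = ⊤)
    (hsum : ∀ v, ∑ g, ρ g v = 0) {v : V} (hv : v ≠ 0) : ∀ᶠ y in 𝓝 v, Rch ρ v y := by
  have := near ρ hs hsum 1 (Or.inl rfl) (FF ρ Finset.univ.toList)
    ((FF_deriv' ρ).congr_fderiv (by rw [one_smul])) (FF_zero _ _) hv Set.univ Filter.univ_mem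
  filter_upwards [this] with y hy
  obtain ⟨a, p, ha, -, hp, e⟩ := hy
  refine ⟨_, valid_map Finset.univ.toList hp, (1 + a)⁻¹, inv_pos.2 ha, ?_⟩
  rw [← FF_eq, ← e, smul_smul, inv_mul_cancel₀ ha.ne', one_smul]

theorem near_in (ρ : G →* (V →L[ℝ] V)) (hs : ∀ W : Submodule ℝ V, Inv ρ W → W = ⊥ ∨ W = ⊤)
    (hsum : ∀ v, ∑ g, ρ g v = 0) {v : V} (hv : v ≠ 0) : ∀ᶠ y in 𝓝 v, Rch ρ y v := by
  have hN : {p : G → ℝ | IsUnit (FF ρ Finset.univ.toList p)} ∈ 𝓝 (0 : G → ℝ) := by
    have hc : ContinuousAt (FF ρ Finset.univ.toList) 0 := (FF_deriv' ρ).continuousAt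
    have h1 : {x : V →L[ℝ] V | IsUnit x} ∈ 𝓝 (FF ρ Finset.univ.toList 0) := by
      rw [FF_zero]
      exact Units.isOpen.mem_nhds isUnit_one
    exact hc.preimage_mem_nhds h1
  have hd : -DD ρ = (-1 : ℝ) • DD ρ := by
    ext q v
    simp
  have := near ρ hs hsum (-1) (Or.inr rfl) (fun p => Ring.inverse (FF ρ Finset.univ.toList p))
    ((FF_inv_deriv ρ).congr_fderiv hd) (by simp [FF_zero]) hv _ hN
  filter_upwards [this] with y hy
  obtain ⟨a, p, ha, hu, hp, e⟩ := hy
  refine ⟨_, valid_map Finset.univ.toList hp, 1 + a, ha, ?_⟩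
  have h2 : FF ρ Finset.univ.toList p (Ring.inverse (FF ρ Finset.univ.toList p) v) = v := by
    have := congrArg (fun A : V →L[ℝ] V => A v) (Ring.mul_inverse_cancel _ hu)
    exact this
  rw [← FF_eq, ← e, map_smul, h2]

theorem reach_all (ρ : G →* (V →L[ℝ] V)) (hs : ∀ W : Submodule ℝ V, Inv ρ W → W = ⊥ ∨ W = ⊤)
    (hsum : ∀ v, ∑ g, ρ g v = 0) (hdim : 1 < Module.finrank ℝ V) {w u : V} (hw : w ≠ 0)
    (hu : u ≠ 0) : Rch ρ w u := by
  have hconn : IsPreconnected ({0}ᶜ : Set V) := by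
    have : 1 < Module.rank ℝ V := by
      rw [← Module.finrank_eq_rank]; exact_mod_cast hdim
    exact (isConnected_compl_singleton_of_one_lt_rank this 0).isPreconnected
  by_contra hcon
  have hne : ∀ {x : V}, x ≠ 0 → ∀ᶠ y in 𝓝 x, y ≠ 0 := fun hx => isOpen_ne.mem_nhds hx
  have o1 : IsOpen {x : V | x ≠ 0 ∧ Rch ρ w x} := by
    rw [isOpen_iff_mem_nhds]
    rintro x ⟨hx, hwx⟩
    filter_upwards [hne hx, near_out ρ hs hsum hx] with y hy1 hy2
    exact ⟨hy1, hwx.trans hy2⟩
  have o2 : IsOpen {x : V | x ≠ 0 ∧ ¬ Rch ρ w x} := by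
    rw [isOpen_iff_mem_nhds]
    rintro x ⟨hx, hwx⟩
    filter_upwards [hne hx, near_in ρ hs hsum hx] with y hy1 hy2
    exact ⟨hy1, fun h => hwx (h.trans hy2)⟩
  obtain ⟨x, -, ⟨-, hx1⟩, ⟨-, hx2⟩⟩ := hconn _ _ o1 o2
    (fun x hx => by
      by_cases h : Rch ρ w x
      · exact Or.inl ⟨hx, h⟩
      · exact Or.inr ⟨hx, h⟩)
    ⟨w, hw, hw, Rch.refl ρ w⟩ ⟨u, hu, hu, hcon⟩
  exact hx2 hx1

theorem simple_case (ρ : G →* (V →L[ℝ] V)) (hs : ∀ W : Submodule ℝ V, Inv ρ W → W = ⊥ ∨ W = ⊤)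
    (hsum : ∀ v, ∑ g, ρ g v = 0) (g : G) {u : V} (hu : u ≠ 0) (hg : ρ g u = -u) :
    ∃ l : List (G × ℝ), Valid l ∧ ev ρ l = 0 := by
  have step : ∀ w : V, w ≠ 0 → ∃ l : List (G × ℝ), Valid l ∧ ρ g (ev ρ l w) = -ev ρ l w := by
    intro w hw
    by_cases hdim : 1 < Module.finrank ℝ V
    · obtain ⟨l, hl, c, _, e⟩ := reach_all ρ hs hsum hdim hw hu
      exact ⟨l, hl, by rw [e, map_smul, hg, smul_neg]⟩
    · have : Nontrivial V := ⟨u, 0, hu⟩
      have h1 : Module.finrank ℝ V = 1 := by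
        have := Module.finrank_pos (R := ℝ) (M := V)
        omega
      obtain ⟨c, hc⟩ := exists_smul_eq_of_finrank_eq_one h1 hu w
      refine ⟨[], valid_nil, ?_⟩
      simp [ev_nil, ← hc, hg]
  have claim : ∀ m : ℕ, m ≤ Module.finrank ℝ V → ∃ l : List (G × ℝ), Valid l ∧
      m ≤ Module.finrank ℝ (LinearMap.ker (ev ρ l).toLinearMap) := by
    intro m
    induction m with
    | zero => intro _; exact ⟨[], valid_nil, Nat.zero_le _⟩
    | succ m ih =>
      intro hm
      obtain ⟨l, hl, hml⟩ := ih (by omega)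
      by_cases hker : LinearMap.ker (ev ρ l).toLinearMap = ⊤
      · exact ⟨l, hl, by rw [hker, finrank_top]; exact hm⟩
      · obtain ⟨v, hv⟩ : ∃ v, v ∉ LinearMap.ker (ev ρ l).toLinearMap := by
          by_contra h
          push Not at h
          exact hker (eq_top_iff.2 fun v _ => h v)
        have hw : ev ρ l v ≠ 0 := hv
        obtain ⟨l2, hl2, h2⟩ := step _ hw
        refine ⟨(g, 1 / 2) :: (l2 ++ l), (hl2.append hl).cons (by norm_num), ?_⟩
        have hev : ∀ x, ev ρ ((g, 1 / 2) :: (l2 ++ l)) x =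
            ev ρ l2 (ev ρ l x) + (1 / 2 : ℝ) • (ρ g (ev ρ l2 (ev ρ l x)) - ev ρ l2 (ev ρ l x)) := by
          intro x
          rw [ev_cons, ev_append]
          rfl
        have hlt : LinearMap.ker (ev ρ l).toLinearMap <
            LinearMap.ker (ev ρ ((g, 1 / 2) :: (l2 ++ l))).toLinearMap := by
          refine lt_of_le_of_ne (fun x hx => ?_) (fun h => hv ?_)
          · have hx' : ev ρ l x = 0 := hx
            change ev ρ ((g, 1 / 2) :: (l2 ++ l)) x = 0
            rw [hev, hx']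
            simp
          · rw [h]
            change ev ρ ((g, 1 / 2) :: (l2 ++ l)) v = 0
            rw [hev, h2]
            have : ∀ y : V, y + (1 / 2 : ℝ) • (-y - y) = 0 := by
              intro y
              have : -y - y = (-2 : ℝ) • y := by
                rw [neg_smul, two_smul]; abel
              rw [this, smul_smul]
              norm_num
            exact this _
        have := Submodule.finrank_lt_finrank_of_lt hlt
        omega
  obtain ⟨l, hl, h⟩ := claim _ le_rfl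
  refine ⟨l, hl, ?_⟩
  have : LinearMap.ker (ev ρ l).toLinearMap = ⊤ :=
    Submodule.eq_top_of_finrank_eq (le_antisymm (Submodule.finrank_le _) h)
  ext x
  have hx : x ∈ LinearMap.ker (ev ρ l).toLinearMap := by rw [this]; trivial
  exact hx

end simple

/-! ### General modules -/

section general

variable {G : Type u} [Group G] [Fintype G]

/-- intertwining maps -/
theorem ev_intertwine {V₁ V₂ : Type*} [AddCommGroup V₁] [Module ℝ V₁] [AddCommGroup V₂]
    [Module ℝ V₂] (ρ₁ : G →* Module.End ℝ V₁) (ρ₂ : G →* Module.End ℝ V₂) (φ : V₁ →ₗ[ℝ] V₂)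
    (h : ∀ g v, φ (ρ₁ g v) = ρ₂ g (φ v)) (l : List (G × ℝ)) (v : V₁) :
    φ (ev ρ₁ l v) = ev ρ₂ l (φ v) := by
  induction l with
  | nil => simp [ev_nil]
  | cons x l ih =>
    rw [ev_cons, ev_cons]
    change φ (ev ρ₁ l v + x.2 • (ρ₁ x.1 (ev ρ₁ l v) - ev ρ₁ l v)) =
      ev ρ₂ l (φ v) + x.2 • (ρ₂ x.1 (ev ρ₂ l (φ v)) - ev ρ₂ l (φ v))
    rw [map_add, map_smul, map_sub, h, ih]

theorem exists_neg (hG : TwoPrimeSimple G) {V : Type*} [AddCommGroup V] [Module ℝ V]
    [Nontrivial V] (ρ : G →* Module.End ℝ V) (hsum : ∀ v, ∑ g, ρ g v = 0) :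
    ∃ g, ∃ u : V, u ≠ 0 ∧ ρ g u = -u := by
  by_cases hodd : Odd ρ.ker.index
  · exfalso
    have htop := hG ρ.ker inferInstance hodd
    obtain ⟨v, hv⟩ := exists_ne (0 : V)
    have h1 : ∀ g, ρ g = 1 := fun g => by
      have : g ∈ ρ.ker := by rw [htop]; trivial
      exact this
    have h2 := hsum v
    simp only [h1, Module.End.one_apply, Finset.sum_const, Finset.card_univ] at h2
    rw [← Nat.cast_smul_eq_nsmul ℝ, smul_eq_zero] at h2
    rcases h2 with h2 | h2
    · have : Fintype.card G ≠ 0 := Fintype.card_ne_zero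
      exact this (by exact_mod_cast h2)
    · exact hv h2
  · rw [Nat.not_odd_iff_even, Subgroup.index_eq_card] at hodd
    obtain ⟨x, hx⟩ := exists_prime_orderOf_dvd_card' (G := G ⧸ ρ.ker) 2 hodd.two_dvd
    obtain ⟨g, rfl⟩ := QuotientGroup.mk_surjective x
    have hg1 : ρ g ≠ 1 := by
      intro h
      have : (g : G ⧸ ρ.ker) = 1 := (QuotientGroup.eq_one_iff g).2 h
      rw [this, orderOf_one] at hx
      omega
    have hg2 : ρ g * ρ g = 1 := by
      have h3 : ((g * g : G) : G ⧸ ρ.ker) = 1 := by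
        have := pow_orderOf_eq_one (g : G ⧸ ρ.ker)
        rw [hx, pow_two] at this
        exact this
      have : g * g ∈ ρ.ker := (QuotientGroup.eq_one_iff _).1 h3
      rw [← map_mul]
      exact this
    obtain ⟨v, hv⟩ : ∃ v, ρ g v ≠ v := by
      by_contra h
      push Not at h
      exact hg1 (LinearMap.ext h)
    refine ⟨g, v - ρ g v, sub_ne_zero.2 (Ne.symm hv), ?_⟩
    have h4 : ρ g (ρ g v) = v := by
      have := congrArg (fun A : Module.End ℝ V => A v) hg2
      exact this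
    rw [map_sub, h4]
    abel

/-- the simple case for abstract modules -/
theorem simple_module (hG : TwoPrimeSimple G) {V : Type u} [AddCommGroup V] [Module ℝ V]
    [FiniteDimensional ℝ V] [Nontrivial V] (ρ : G →* Module.End ℝ V)
    (hsum : ∀ v, ∑ g, ρ g v = 0)
    (hs : ∀ W : Submodule ℝ V, (∀ g, ∀ w ∈ W, ρ g w ∈ W) → W = ⊥ ∨ W = ⊤) :
    ∃ l : List (G × ℝ), Valid l ∧ ev ρ l = 0 := by
  obtain ⟨g, u, hu, hg⟩ := exists_neg hG ρ hsum
  let e : V ≃ₗ[ℝ] (Fin (Module.finrank ℝ V) → ℝ) := (Module.finBasis ℝ V).equivFun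
  let _ : NormedAddCommGroup V := NormedAddCommGroup.induced V
    (Fin (Module.finrank ℝ V) → ℝ) e.toLinearMap e.injective
  let _ : NormedSpace ℝ V := NormedSpace.induced ℝ V (Fin (Module.finrank ℝ V) → ℝ) e.toLinearMap
  let T : Module.End ℝ V ≃ₐ[ℝ] (V →L[ℝ] V) := Module.End.toContinuousLinearMap V
  let ρ' : G →* (V →L[ℝ] V) := (T : Module.End ℝ V →* (V →L[ℝ] V)).comp ρ
  have hρ' : ∀ g v, ρ' g v = ρ g v := fun g v => rfl
  obtain ⟨l, hl, h0⟩ := simple_case ρ' hs hsum g hu hg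
  refine ⟨l, hl, ?_⟩
  have h1 : ev ρ' l = T (ev ρ l) := by
    unfold ev
    rw [map_list_prod, List.map_map]
    congr 1
  rw [h1] at h0
  exact (map_eq_zero_iff T T.injective).1 h0

theorem main_module (hG : TwoPrimeSimple G) : ∀ (n : ℕ) (V : Type u) [AddCommGroup V]
    [Module ℝ V] [FiniteDimensional ℝ V] (ρ : G →* Module.End ℝ V),
    (∀ v, ∑ g, ρ g v = 0) → Module.finrank ℝ V = n →
    ∃ l : List (G × ℝ), Valid l ∧ ev ρ l = 0 := by
  intro n
  induction n using Nat.strong_induction_on with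
  | _ n ih =>
  intro V _ _ _ ρ hsum hn
  rcases subsingleton_or_nontrivial V with hV | hV
  · exact ⟨[], valid_nil, Subsingleton.elim _ _⟩
  by_cases hs : ∀ W : Submodule ℝ V, (∀ g, ∀ w ∈ W, ρ g w ∈ W) → W = ⊥ ∨ W = ⊤
  · exact simple_module hG ρ hsum hs
  · push Not at hs
    obtain ⟨W, hW, hbot, htop⟩ := hs
    have d1 : Module.finrank ℝ W < n := hn ▸ Submodule.finrank_lt htop
    have d2 : Module.finrank ℝ (V ⧸ W) < n := by
      have h1 := Submodule.finrank_quotient_add_finrank W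
      have h2 : 0 < Module.finrank ℝ W := by
        rw [Module.finrank_pos_iff]
        exact Submodule.nontrivial_iff_ne_bot.2 hbot
      omega
    let ρW : G →* Module.End ℝ W :=
      { toFun := fun g => (ρ g).restrict (hW g)
        map_one' := by ext; simp
        map_mul' := by intro g h; ext; simp }
    let ρQ : G →* Module.End ℝ (V ⧸ W) :=
      { toFun := fun g => W.mapQ W (ρ g) (hW g)
        map_one' := by ext; simp
        map_mul' := by intro g h; ext; simp }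
    have s1 : ∀ w : W, ∑ g, ρW g w = 0 := by
      intro w
      apply Subtype.ext
      have := hsum w
      simpa [ρW] using this
    have s2 : ∀ w : V ⧸ W, ∑ g, ρQ g w = 0 := by
      intro w
      obtain ⟨v, rfl⟩ := Submodule.Quotient.mk_surjective W w
      have : ∑ g, ρQ g (Submodule.Quotient.mk v) = W.mkQ (∑ g, ρ g v) := by
        rw [map_sum]; rfl
      rw [this, hsum, map_zero]
    obtain ⟨l1, hl1, e1⟩ := ih _ d1 W ρW s1 rfl
    obtain ⟨l2, hl2, e2⟩ := ih _ d2 (V ⧸ W) ρQ s2 rfl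
    refine ⟨l1 ++ l2, hl1.append hl2, ?_⟩
    ext v
    rw [ev_append]
    change ev ρ l1 (ev ρ l2 v) = 0
    have hmem : ev ρ l2 v ∈ W := by
      have := ev_intertwine ρ ρQ W.mkQ (fun g v => rfl) l2 v
      rw [e2] at this
      rw [← Submodule.Quotient.mk_eq_zero]
      exact this
    have := ev_intertwine ρW ρ W.subtype (fun g v => rfl) l1 ⟨_, hmem⟩
    rw [e1] at this
    exact this.symm

/-! ### The regular representation -/

/-- the regular representation on functions -/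
def reg (G : Type u) [Group G] : G →* Module.End ℝ (G → ℝ) where
  toFun g := LinearMap.funLeft ℝ ℝ fun x => g⁻¹ * x
  map_one' := by ext; simp [LinearMap.funLeft_apply]
  map_mul' g h := by
    refine LinearMap.ext fun f => funext fun x => ?_
    simp [LinearMap.funLeft_apply, mul_assoc]

theorem reg_apply (g : G) (f : G → ℝ) (x : G) : reg G g f x = f (g⁻¹ * x) := rfl

/-- right translation -/
def rt (G : Type u) [Group G] (a : G) : (G → ℝ) →ₗ[ℝ] (G → ℝ) := LinearMap.funLeft ℝ ℝ fun x => x * a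

theorem rt_apply (a : G) (f : G → ℝ) (x : G) : rt G a f x = f (x * a) := rfl

/-- total mass -/
noncomputable def mass (G : Type u) [Fintype G] : (G → ℝ) →ₗ[ℝ] ℝ := ∑ x, LinearMap.proj x

theorem mass_apply (f : G → ℝ) : mass G f = ∑ x, f x := by simp [mass]

theorem mass_reg (g : G) (f : G → ℝ) : mass G (reg G g f) = mass G f := by
  rw [mass_apply, mass_apply]
  exact Equiv.sum_comp (Equiv.mulLeft g⁻¹) f

theorem exists_uniform [DecidableEq G] (hG : TwoPrimeSimple G) : ∃ l : List (G × ℝ), Valid l ∧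
    ∀ x, ev (reg G) l (fun y => if y = 1 then 1 else 0) x = 1 / Fintype.card G := by
  classical
  let B : Submodule ℝ (G → ℝ) := LinearMap.ker (mass G)
  let ρ : G →* Module.End ℝ B :=
    { toFun := fun g => (reg G g).restrict (fun f hf => by
        change mass G (reg G g f) = 0
        rw [mass_reg]; exact hf)
      map_one' := by ext; simp
      map_mul' := by intro g h; ext; simp }
  have hsum : ∀ f : B, ∑ g, ρ g f = 0 := by
    intro f
    apply Subtype.ext
    funext x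
    have h1 : ((∑ g, ρ g f : B) : G → ℝ) x = ∑ g, (f : G → ℝ) (g⁻¹ * x) := by
      simp [ρ, reg_apply]
    rw [h1]
    have h2 : ∑ g, (f : G → ℝ) (g⁻¹ * x) = ∑ y, (f : G → ℝ) y :=
      Equiv.sum_comp ((Equiv.inv G).trans (Equiv.mulRight x)) (f : G → ℝ)
    rw [h2, ← mass_apply]
    exact f.2
  obtain ⟨l, hl, h0⟩ := main_module hG _ B ρ hsum rfl
  refine ⟨l, hl, ?_⟩
  set δ : G → ℝ := fun y => if y = 1 then 1 else 0 with hδ
  have hB : ∀ f : G → ℝ, mass G f = 0 → ev (reg G) l f = 0 := by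
    intro f hf
    have := ev_intertwine ρ (reg G) B.subtype (fun g v => rfl) l ⟨f, hf⟩
    rw [h0] at this
    exact this.symm
  have hconst : ∀ x, ev (reg G) l δ x = ev (reg G) l δ 1 := by
    intro x
    have h1 : mass G (δ - rt G x δ) = 0 := by
      rw [map_sub, mass_apply, mass_apply]
      have : ∑ y, rt G x δ y = ∑ y, δ y := Equiv.sum_comp (Equiv.mulRight x) δ
      rw [this, sub_self]
    have h2 := hB _ h1
    rw [map_sub, sub_eq_zero,
      ← ev_intertwine (reg G) (reg G) (rt G x) (fun g f => by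
        funext y; simp [reg_apply, rt_apply, mul_assoc]) l δ] at h2
    have := congrFun h2 1
    rw [rt_apply, one_mul] at this
    exact this.symm
  have hmass : ∑ x, ev (reg G) l δ x = 1 := by
    rw [← mass_apply]
    have h1 := ev_intertwine (reg G) (1 : G →* Module.End ℝ ℝ) (mass G)
      (fun g f => by rw [mass_reg]; rfl) l δ
    rw [h1]
    have h2 : ev (1 : G →* Module.End ℝ ℝ) l = 1 := by
      unfold ev
      apply List.prod_eq_one
      intro y hy
      obtain ⟨z, _, rfl⟩ := List.mem_map.1 hy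
      simp
    rw [h2, mass_apply]
    simp [hδ]
  intro x
  rw [Finset.sum_congr rfl (fun x _ => hconst x), Finset.sum_const, Finset.card_univ,
    nsmul_eq_mul] at hmass
  rw [hconst x]
  have hc : (Fintype.card G : ℝ) ≠ 0 := by exact_mod_cast Fintype.card_ne_zero
  field_simp
  linarith

/-- the distribution of the random product -/
theorem ev_ofFn : ∀ (k : ℕ) (g : Fin k → G) (p : Fin k → ℝ) (f : G → ℝ) (x : G),
    ev (reg G) (List.ofFn fun i => (g i, p i)) f x =
      ∑ ε : Fin k → Bool, prob p ε * f ((subproduct g ε)⁻¹ * x) := by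
  intro k
  induction k with
  | zero =>
    intro g p f x
    simp [ev_nil, prob, subproduct]
  | succ k ih =>
    intro g p f x
    rw [List.ofFn_succ, ev_cons]
    change (ev (reg G) (List.ofFn fun i : Fin k => (g i.succ, p i.succ)) f +
      (p 0) • (reg G (g 0) (ev (reg G) (List.ofFn fun i : Fin k => (g i.succ, p i.succ)) f) -
        ev (reg G) (List.ofFn fun i : Fin k => (g i.succ, p i.succ)) f)) x = _
    rw [Pi.add_apply, Pi.smul_apply, Pi.sub_apply, reg_apply, ih (fun i => g i.succ)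
      (fun i => p i.succ), ih (fun i => g i.succ) (fun i => p i.succ),
      ← (Fin.consEquiv fun _ => Bool).sum_comp, Fintype.sum_prod_type]
    simp only [Fintype.sum_bool]
    have e1 : ∀ (b : Bool) (ε : Fin k → Bool),
        prob p ((Fin.consEquiv fun _ => Bool) (b, ε)) =
          (if b then p 0 else 1 - p 0) * prob (fun i => p i.succ) ε := by
      intro b ε
      simp [prob, Fin.prod_univ_succ, Fin.consEquiv]
    have e2 : ∀ (b : Bool) (ε : Fin k → Bool),
        subproduct g ((Fin.consEquiv fun _ => Bool) (b, ε)) =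
          (if b then g 0 else 1) * subproduct (fun i => g i.succ) ε := by
      intro b ε
      simp [subproduct, List.ofFn_succ, Fin.consEquiv]
    simp only [e1, e2, if_true, Bool.false_eq_true, if_false, one_mul, mul_inv_rev, mul_assoc,
      smul_eq_mul]
    rw [← Finset.mul_sum, ← Finset.mul_sum]
    ring

end general

/-- **Every finite `2'`-simple group is mixable.** -/
theorem result (G : Type u) [Group G] [Finite G] (hG : TwoPrimeSimple G) : Mixable G := by
  classical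
  have := Fintype.ofFinite G
  obtain ⟨l, hl, h⟩ := exists_uniform hG
  refine ⟨l.length, fun i => (l.get i).1, fun i => (l.get i).2,
    fun i => hl _ (List.get_mem l i), fun x => ?_⟩
  have h1 := h x
  have h2 : l = List.ofFn fun i => ((l.get i).1, (l.get i).2) := by
    exact (List.ofFn_get l).symm
  rw [h2, ev_ofFn] at h1
  rw [Nat.card_eq_fintype_card, ← h1, Finset.sum_filter]
  refine Finset.sum_congr rfl fun ε _ => ?_
  by_cases hx : subproduct (fun i => (l.get i).1) ε = x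
  · rw [if_pos hx, if_pos (by rw [hx, inv_mul_cancel]), mul_one]
  · rw [if_neg hx, if_neg (fun h' => hx (inv_mul_eq_one.1 h')), mul_zero]

end Pool.Agent.Results.MP_892d82_al.TwoPrimeSimpleMixable
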